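import Mathlib
import Pool.Agent.H9.WMC.Lin

/-!
Module SUM: direct summands (MP_d037d4_ag).
-/

namespace Pool.WMC

open Module Module.End Pool.H73.WM Pool.H9.WMC

section pow

theorem sum_isWeil_pow {Ω : Type*} [Field Ω] [CharZero Ω] {q : ℕ} {α : Ω} {w : ℤ}
    (h : IsWeil q α w) (m : ℕ) : IsWeil (q ^ m) (α ^ m) w := by
  refine ⟨h.1.pow m, ?_⟩
  intro z hz
  let A := algebraicClosure ℚ Ω
  let a : A := ⟨α, (mem_algebraicClosure_iff).2 h.1⟩
  have hal : Algebra.IsAlgebraic ℚ A := algebraicClosure.isAlgebraic ℚ Ω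
  have hma : minpoly ℚ a = minpoly ℚ α :=
    (minpoly.algebraMap_eq (algebraMap A Ω).injective a).symm
  have hmab : minpoly ℚ (a ^ m) = minpoly ℚ (α ^ m) :=
    (minpoly.algebraMap_eq (algebraMap A Ω).injective (a ^ m)).symm
  have hne : minpoly ℚ (a ^ m) ≠ 0 := minpoly.ne_zero (hal.isAlgebraic (a ^ m)).isIntegral
  have hmem : z ∈ (minpoly ℚ (a ^ m)).rootSet ℂ := by
    rw [Polynomial.mem_rootSet]
    exact ⟨hne, by rw [hmab]; exact hz⟩
  rw [← Algebra.IsAlgebraic.range_eval_eq_rootSet_minpoly] at hmem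
  obtain ⟨ψ, hψ⟩ := hmem
  have hψ' : (ψ a) ^ m = z := by rw [← map_pow]; exact hψ
  have e1 : ‖ψ a‖ = (q : ℝ) ^ ((w : ℝ) / 2) := by
    apply h.2
    rw [← hma, Polynomial.aeval_algHom_apply, minpoly.aeval, map_zero]
  rw [← hψ', norm_pow, e1]
  push_cast
  rw [← Real.rpow_natCast, ← Real.rpow_natCast, ← Real.rpow_mul (by positivity),
    ← Real.rpow_mul (by positivity), mul_comm]

end pow

section GS
variable {Ω : Type*} [Field Ω] {V V' : Type*} [AddCommGroup V] [Module Ω V] [AddCommGroup V']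
  [Module Ω V']

/-- A linear map commuting with two endomorphisms respects the generalized eigenspaces. -/
theorem sum_gen {A : V →ₗ[Ω] V} {B : V' →ₗ[Ω] V'} {g : V →ₗ[Ω] V'}
    (h : ∀ x, g (A x) = B (g x)) (α : Ω) :
    ∀ x ∈ maxGenEigenspace A α, g x ∈ maxGenEigenspace B α := by
  intro x hx
  rw [mem_maxGenEigenspace] at hx ⊢
  obtain ⟨n, hn⟩ := hx
  refine ⟨n, ?_⟩
  have key : ∀ m : ℕ, ∀ y : V, ((B - α • (1 : End Ω V')) ^ m) (g y)
      = g (((A - α • (1 : End Ω V)) ^ m) y) := by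
    intro m
    induction m with
    | zero => intro y; simp
    | succ m ih =>
      intro y
      have e1 : ((B - α • (1 : End Ω V')) ^ (m + 1)) (g y)
          = ((B - α • (1 : End Ω V')) ^ m) (B (g y) - α • g y) := by
        rw [pow_succ]; rfl
      have e2 : ((A - α • (1 : End Ω V)) ^ (m + 1)) y
          = ((A - α • (1 : End Ω V)) ^ m) (A y - α • y) := by
        rw [pow_succ]; rfl
      rw [e1, e2, ← h, ← map_smul, ← map_sub, ih]
  rw [key, hn, map_zero]

theorem sum_GS {A : V →ₗ[Ω] V} {B : V' →ₗ[Ω] V'} {g : V →ₗ[Ω] V'}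
    (h : ∀ x, g (A x) = B (g x)) (S : Set Ω) : ∀ x ∈ GS A S, g x ∈ GS B S := by
  have : GS A S ≤ (GS B S).comap g := by
    apply GS_le
    intro α hα x hx
    exact le_GS B hα (sum_gen h α x hx)
  exact this

theorem sum_gen_pow (F : V →ₗ[Ω] V) (α : Ω) (m : ℕ) :
    maxGenEigenspace F α ≤ maxGenEigenspace (F ^ m) (α ^ m) := by
  intro x hx
  rw [mem_maxGenEigenspace] at hx ⊢
  obtain ⟨n, hn⟩ := hx
  refine ⟨n, ?_⟩
  have hc : Commute F (α • (1 : End Ω V)) := by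
    apply Commute.smul_right
    exact Commute.one_right F
  have hfac : F ^ m - (α ^ m) • (1 : End Ω V)
      = (∑ i ∈ Finset.range m, F ^ i * (α • (1 : End Ω V)) ^ (m - 1 - i)) *
        (F - α • (1 : End Ω V)) := by
    have := hc.geom_sum₂_mul m
    rw [this, smul_pow, one_pow]
  have hcom : Commute (∑ i ∈ Finset.range m, F ^ i * (α • (1 : End Ω V)) ^ (m - 1 - i))
      (F - α • (1 : End Ω V)) := by
    apply Commute.sum_left
    intro i _
    apply Commute.mul_left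
    · apply Commute.pow_left
      apply Commute.sub_right (Commute.refl F) hc
    · apply Commute.pow_left
      apply Commute.sub_right hc.symm (Commute.refl _)
  rw [hfac, hcom.mul_pow]
  show (_ : End Ω V) (((F - α • (1 : End Ω V)) ^ n) x) = 0
  rw [hn, map_zero]

end GS

theorem sum_wt {q : ℕ} {Ω : Type} [Field Ω] [CharZero Ω] [IsAlgClosed Ω] (hq : 1 < q)
    (M : FN q Ω) (v : ℤ) {m : ℕ} (hm : 0 < m) :
    M.wt v = GS (M.F ^ m) {α : Ω | IsWeil (q ^ m) α v} := by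
  have hqm : 1 < q ^ m := Nat.one_lt_pow hm.ne' hq
  have h1 : ∀ P : ℤ → Prop, GS M.F {α : Ω | ∃ w, P w ∧ IsWeil q α w} ≤
      GS (M.F ^ m) {α : Ω | ∃ w, P w ∧ IsWeil (q ^ m) α w} := by
    intro P
    apply GS_le
    rintro α ⟨w, hw, hα⟩
    refine (sum_gen_pow M.F α m).trans (le_GS (M.F ^ m) ?_)
    exact ⟨w, hw, sum_isWeil_pow hα m⟩
  have e1 : M.wt v = GS M.F {α : Ω | ∃ w, w = v ∧ IsWeil q α w} := by
    unfold FN.wt
    congr 1
    ext α
    simp
  have e2 : GS (M.F ^ m) {α : Ω | IsWeil (q ^ m) α v}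
      = GS (M.F ^ m) {α : Ω | ∃ w, w = v ∧ IsWeil (q ^ m) α w} := by
    congr 1
    ext α
    simp
  rw [e1, e2]
  apply le_antisymm (h1 _)
  intro x hx
  have htop : GS M.F {α : Ω | ∃ w, w = v ∧ IsWeil q α w} ⊔
      GS M.F {α : Ω | ∃ w, w ≠ v ∧ IsWeil q α w} = ⊤ := by
    rw [← GS_union, ← top_le_iff, ← GS_univ M.F]
    apply GS_le
    intro α _
    by_cases h : ∃ w : ℤ, IsWeil q α w
    · obtain ⟨w, hw⟩ := h
      apply le_GS
      by_cases hv : w = v
      · exact Or.inl ⟨w, hv, hw⟩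
      · exact Or.inr ⟨w, hv, hw⟩
    · have : maxGenEigenspace M.F α = ⊥ := by
        by_contra hne
        obtain ⟨y, hy, hy0⟩ := (Submodule.ne_bot_iff _).1 hne
        have hst : ∀ x ∈ maxGenEigenspace M.F α, M.F x ∈ maxGenEigenspace M.F α :=
          mapsTo_gen (F := M.F) (T := M.F) (α := α) (β := α) (c := 1) (by intro x; simp)
        obtain ⟨z, hz, hz0, β, hβ⟩ := exists_eigenvector M.F _ hst hy hy0
        have hzs : z ∈ GS M.F {α} := le_GS M.F (Set.mem_singleton α) hz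
        have := eig_mem M.F {α} hzs hz0 hβ
        rw [Set.mem_singleton_iff] at this
        subst this
        exact h (M.mixed β z hz0 hβ)
      rw [this]
      exact bot_le
  have hx2 : x ∈ GS M.F {α : Ω | ∃ w, w = v ∧ IsWeil q α w} ⊔
      GS M.F {α : Ω | ∃ w, w ≠ v ∧ IsWeil q α w} := by
    rw [htop]; trivial
  obtain ⟨t, ht, t', ht', rfl⟩ := Submodule.mem_sup.1 hx2
  have hd : Disjoint (GS (M.F ^ m) {α : Ω | ∃ w, w = v ∧ IsWeil (q ^ m) α w})
      (GS (M.F ^ m) {α : Ω | ∃ w, w ≠ v ∧ IsWeil (q ^ m) α w}) := by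
    apply GS_disjoint
    rw [Set.disjoint_left]
    rintro α ⟨w, hw, hα⟩ ⟨w', hw', hα'⟩
    apply hw'
    rw [← hw]
    exact hα'.unique hqm hα
  have h2 : t' ∈ GS (M.F ^ m) {α : Ω | ∃ w, w = v ∧ IsWeil (q ^ m) α w} := by
    have := Submodule.sub_mem _ hx (h1 _ ht)
    rwa [add_sub_cancel_left] at this
  have h3 : t' = 0 := Submodule.disjoint_def.1 hd t' h2 (h1 _ ht')
  rw [h3, add_zero]
  exact ht

theorem sum_thm : SUMStmt := by
  intro q q' Ω _ _ _ hq hq' M M' hS w hP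
  obtain ⟨m, n, c, j, r, hm, hn, hqq, hc, hrj, hjF, hrF, hjN, hrN⟩ := hS
  have hj : ∀ v : ℤ, ∀ x ∈ M.wt v, j x ∈ M'.wt v := by
    intro v x hx
    rw [sum_wt hq M v hm] at hx
    rw [sum_wt hq' M' v hn, ← hqq]
    exact sum_GS hjF _ x hx
  have hr : ∀ v : ℤ, ∀ x ∈ M'.wt v, r x ∈ M.wt v := by
    intro v x hx
    rw [sum_wt hq' M' v hn, ← hqq] at hx
    rw [sum_wt hq M v hm]
    exact sum_GS hrF _ x hx
  have hjNk : ∀ (k : ℕ) (x : M.V), j ((M.N ^ k) x) = c ^ k • (M'.N ^ k) (j x) := by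
    intro k
    induction k with
    | zero => intro x; simp
    | succ k ih =>
      intro x
      have e1 : (M.N ^ (k + 1)) x = (M.N ^ k) (M.N x) := by rw [pow_succ]; rfl
      have e2 : (M'.N ^ (k + 1)) (j x) = (M'.N ^ k) (M'.N (j x)) := by rw [pow_succ]; rfl
      rw [e1, e2, ih, hjN, map_smul, smul_smul, pow_succ]
  have hrNk : ∀ (k : ℕ) (y : M'.V), r (c ^ k • (M'.N ^ k) y) = (M.N ^ k) (r y) := by
    intro k
    induction k with
    | zero => intro x; simp
    | succ k ih =>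
      intro x
      have e1 : (M.N ^ (k + 1)) (r x) = (M.N ^ k) (M.N (r x)) := by rw [pow_succ]; rfl
      have e2 : (M'.N ^ (k + 1)) x = (M'.N ^ k) (M'.N x) := by rw [pow_succ]; rfl
      rw [e1, e2, ← hrN, ← ih, (M'.N ^ k).map_smul, smul_smul, pow_succ]
  intro k
  obtain ⟨h1, h2⟩ := hP k
  constructor
  · intro x hx hNx
    have hjx : (M'.N ^ k) (j x) = 0 := by
      have := hjNk k x
      rw [hNx, map_zero] at this
      have hck : c ^ k ≠ 0 := pow_ne_zero k hc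
      exact (smul_eq_zero.1 this.symm).resolve_left hck
    have := h1 (j x) (hj _ x hx) hjx
    rw [← hrj x, this, map_zero]
  · intro y hy
    obtain ⟨x', hx', hNx'⟩ := h2 (j y) (hj _ y hy)
    refine ⟨(c ^ k)⁻¹ • r x', Submodule.smul_mem _ _ (hr _ x' hx'), ?_⟩
    rw [map_smul, ← hrNk, hNx', map_smul, hrj, smul_smul, inv_mul_cancel₀ (pow_ne_zero k hc),
      one_smul]

end Pool.WMC
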