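import Mathlib
import Pool.Agent.H9.WMC.Alg

/-!
Module REG: registers (MP_d037d4_ag).
-/

namespace Pool.WMC

open Pool.H9.WMC MvPolynomial

namespace Reg

variable {k : Type} [Field k] {m : ℕ}

/-- The affine form with coefficients `a`. -/
noncomputable def aff (a : Fin (m + 1) → k) : MvPolynomial (Fin m) k :=
  C (a 0) + ∑ i : Fin m, C (a i.succ) * X i

/-- The row of affine forms of an equation. -/
noncomputable def row {b : ℕ} (a : Fin (m + 1) → Fin b → k) (j : Fin b) : MvPolynomial (Fin m) k :=
  aff (fun i => a i j)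

/-- A system of registers. -/
structure Sys (S : Set k) (m : ℕ) where
  b : ℕ
  t : ℕ
  c : Fin t → Fin (m + 1) → Fin b → k
  g : Fin b → MvPolynomial (Fin m) k
  j0 : Fin b
  hc : ∀ e i j, c e i j ∈ S
  hg0 : g j0 = 1
  hrow : ∀ e, ∑ j, row (c e) j * g j = 0
  hgen : ∀ j, Pi.single j (1 : MvPolynomial (Fin m) k) - g j • Pi.single j0 1 ∈
    Submodule.span (MvPolynomial (Fin m) k) (Set.range fun e => row (c e))

variable {S : Set k}

/-- The initial system: one register, no equation. -/
noncomputable def init (S : Set k) (m : ℕ) : Sys S m where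
  b := 1
  t := 0
  c := fun e => e.elim0
  g := fun _ => 1
  j0 := 0
  hc := fun e => e.elim0
  hg0 := rfl
  hrow := fun e => e.elim0
  hgen := by
    intro j
    have : j = 0 := Subsingleton.elim _ _
    subst this
    rw [one_smul, sub_self]
    exact Submodule.zero_mem _

theorem row_cons_succ {b : ℕ} (a : Fin (m + 1) → Fin b → k) (z : Fin (m + 1) → k) (j : Fin b) :
    row (fun i => (Fin.cons (z i) (a i) : Fin (b + 1) → k)) j.succ = row a j := by
  simp [row, aff]

theorem row_cons_zero {b : ℕ} (a : Fin (m + 1) → Fin b → k) (z : Fin (m + 1) → k) :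
    row (fun i => (Fin.cons (z i) (a i) : Fin (b + 1) → k)) 0 = aff z := by
  simp [row, aff]

/-- The coefficients of `-1`. -/
def neg1 (k : Type) [Field k] (m : ℕ) : Fin (m + 1) → k := fun i => if i = 0 then -1 else 0

theorem aff_neg1 : aff (neg1 k m) = -1 := by
  simp [aff, neg1, Fin.succ_ne_zero]

theorem aff_zero : aff (fun _ => 0 : Fin (m + 1) → k) = 0 := by
  simp [aff]

/-- Add one register. -/
noncomputable def Sys.ext (A : Sys S m) (h0 : (0 : k) ∈ S) (h1 : (-1 : k) ∈ S)
    (a : Fin (m + 1) → Fin A.b → k) (ha : ∀ i j, a i j ∈ S) : Sys S m where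
  b := A.b + 1
  t := A.t + 1
  c := Fin.cons (fun i => Fin.cons (neg1 k m i) (a i)) (fun e i => Fin.cons 0 (A.c e i))
  g := Fin.cons (∑ j, row a j * A.g j) A.g
  j0 := A.j0.succ
  hc := by
    intro e
    refine Fin.cases ?_ ?_ e
    · intro i j
      refine Fin.cases ?_ ?_ j
      · simp only [Fin.cons_zero, neg1]
        split_ifs
        · exact h1
        · exact h0
      · intro j
        simpa using ha i j
    · intro e i j
      refine Fin.cases ?_ ?_ j
      · simpa using h0
      · intro j
        simpa using A.hc e i j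
  hg0 := by simpa using A.hg0
  hrow := by
    intro e
    refine Fin.cases ?_ ?_ e
    · rw [Fin.cons_zero, Fin.sum_univ_succ, row_cons_zero]
      simp only [row_cons_succ, Fin.cons_zero, Fin.cons_succ, aff_neg1]
      ring
    · intro e
      rw [Fin.cons_succ, Fin.sum_univ_succ]
      have h := row_cons_zero (A.c e) (fun _ => 0)
      have h2 := row_cons_succ (A.c e) (fun _ => 0)
      simp only [h, h2, Fin.cons_zero, Fin.cons_succ, aff_zero]
      rw [A.hrow e]
      ring
  hgen := by
    -- the inclusion of the old module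
    let R := MvPolynomial (Fin m) k
    let inc : (Fin A.b → R) →ₗ[R] (Fin (A.b + 1) → R) :=
      { toFun := fun v => Fin.cons 0 v
        map_add' := by
          intro v w
          funext j
          refine Fin.cases ?_ ?_ j
          · simp
          · intro j; simp
        map_smul' := by
          intro r v
          funext j
          refine Fin.cases ?_ ?_ j
          · simp
          · intro j; simp }
    have hinc : ∀ v : Fin A.b → R, ∀ j, inc v (Fin.succ j) = v j := fun v j => rfl
    have hinc0 : ∀ v : Fin A.b → R, inc v 0 = 0 := fun v => rfl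
    have hsingle : ∀ j : Fin A.b, inc (Pi.single j 1) = Pi.single j.succ 1 := by
      intro j
      funext i
      refine Fin.cases ?_ ?_ i
      · rw [hinc0, Pi.single_eq_of_ne (Fin.succ_ne_zero j).symm]
      · intro i
        rw [hinc]
        by_cases h : i = j
        · subst h; simp
        · rw [Pi.single_eq_of_ne h, Pi.single_eq_of_ne (fun h' => h (Fin.succ_injective _ h'))]
    set c' : Fin (A.t + 1) → Fin (m + 1) → Fin (A.b + 1) → k :=
      Fin.cons (fun i => Fin.cons (neg1 k m i) (a i)) (fun e i => Fin.cons 0 (A.c e i)) with hc'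
    set N' := Submodule.span R (Set.range fun e => row (c' e)) with hN'
    have hrows : ∀ e : Fin A.t, inc (row (A.c e)) ∈ N' := by
      intro e
      have : inc (row (A.c e)) = row (c' e.succ) := by
        funext j
        rw [hc', Fin.cons_succ]
        refine Fin.cases ?_ ?_ j
        · rw [hinc0]
          have h := row_cons_zero (A.c e) (fun _ => 0)
          rw [h, aff_zero]
        · intro j
          rw [hinc]
          have h := row_cons_succ (A.c e) (fun _ => 0) j
          rw [h]
      rw [this]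
      exact Submodule.subset_span ⟨e.succ, rfl⟩
    have hmap : ∀ v ∈ Submodule.span R (Set.range fun e => row (A.c e)), inc v ∈ N' := by
      have : Submodule.span R (Set.range fun e => row (A.c e)) ≤ N'.comap inc := by
        rw [Submodule.span_le]
        rintro _ ⟨e, rfl⟩
        exact hrows e
      exact this
    have hold : ∀ j : Fin A.b, Pi.single j.succ (1 : R) - A.g j • Pi.single A.j0.succ 1 ∈ N' := by
      intro j
      have := hmap _ (A.hgen j)
      rwa [map_sub, map_smul, hsingle, hsingle] at this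
    intro j
    refine Fin.cases ?_ ?_ j
    · rw [Fin.cons_zero]
      -- the new row
      have hnew : row (c' 0) ∈ N' := Submodule.subset_span ⟨0, rfl⟩
      have e1 : row (c' 0) = -Pi.single 0 1 + ∑ j, row a j • Pi.single (Fin.succ j) (1 : R) := by
        funext i
        rw [hc', Fin.cons_zero]
        refine Fin.cases ?_ ?_ i
        · rw [row_cons_zero, aff_neg1]
          simp [Finset.sum_apply]
        · intro i
          rw [row_cons_succ]
          simp only [Pi.add_apply, Pi.neg_apply, Finset.sum_apply, Pi.smul_apply, smul_eq_mul,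
            Pi.single_eq_of_ne (Fin.succ_ne_zero i), neg_zero, zero_add]
          rw [Finset.sum_eq_single i]
          · simp
          · intro j _ hji
            rw [Pi.single_eq_of_ne (fun h' => hji (Fin.succ_injective _ h').symm), mul_zero]
          · intro h; exact absurd (Finset.mem_univ _) h
      have e2 : Pi.single 0 (1 : R) - (∑ j, row a j * A.g j) • Pi.single A.j0.succ 1
          = (∑ j, row a j • (Pi.single (Fin.succ j) (1 : R) - A.g j • Pi.single A.j0.succ 1))
            - row (c' 0) := by
        rw [e1]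
        simp only [smul_sub, Finset.sum_sub_distrib, smul_smul, ← Finset.sum_smul]
        abel
      rw [e2]
      refine Submodule.sub_mem _ (Submodule.sum_mem _ fun j _ => Submodule.smul_mem _ _ (hold j))
        hnew
    · intro j
      rw [Fin.cons_succ]
      exact hold j

/-- `p` is computed by some extension of every system. -/
def Cmp (S : Set k) (m : ℕ) (p : MvPolynomial (Fin m) k) : Prop :=
  ∀ A : Sys S m, ∃ B : Sys S m, Set.range A.g ⊆ Set.range B.g ∧ p ∈ Set.range B.g

theorem ext_range (A : Sys S m) (h0 : (0 : k) ∈ S) (h1 : (-1 : k) ∈ S)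
    (a : Fin (m + 1) → Fin A.b → k) (ha : ∀ i j, a i j ∈ S) :
    Set.range A.g ⊆ Set.range (A.ext h0 h1 a ha).g := by
  rintro _ ⟨j, rfl⟩
  exact ⟨j.succ, rfl⟩

theorem ext_g (A : Sys S m) (h0 : (0 : k) ∈ S) (h1 : (-1 : k) ∈ S)
    (a : Fin (m + 1) → Fin A.b → k) (ha : ∀ i j, a i j ∈ S) :
    (∑ j, row a j * A.g j) ∈ Set.range (A.ext h0 h1 a ha).g :=
  ⟨(0 : Fin (A.b + 1)), rfl⟩

theorem row_single {b : ℕ} (i0 : Fin (m + 1)) (s : Fin b → k) (j : Fin b) :
    row (fun i j => if i = i0 then s j else 0) j =
      C (s j) * (Fin.cons 1 X : Fin (m + 1) → MvPolynomial (Fin m) k) i0 := by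
  unfold row aff
  refine Fin.cases ?_ ?_ i0
  · simp [Fin.succ_ne_zero]
  · intro i
    simp only [(Fin.succ_ne_zero i).symm, if_false, map_zero, zero_add, Fin.cons_succ]
    rw [Finset.sum_eq_single i]
    · simp
    · intro j' _ hj
      rw [if_neg (fun h => hj (Fin.succ_injective _ h))]
      simp
    · intro h; exact absurd (Finset.mem_univ _) h

theorem cmp_smul_var (h0 : (0 : k) ∈ S) (h1 : (-1 : k) ∈ S) {p : MvPolynomial (Fin m) k}
    (hp : Cmp S m p) {s : k} (hs : s ∈ S) (i0 : Fin (m + 1)) :
    Cmp S m (C s * (Fin.cons 1 X : Fin (m + 1) → MvPolynomial (Fin m) k) i0 * p) := by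
  intro A
  obtain ⟨B, hAB, j, hj⟩ := hp A
  let a : Fin (m + 1) → Fin B.b → k := fun i j' => if i = i0 then (if j' = j then s else 0) else 0
  have ha : ∀ i j, a i j ∈ S := by
    intro i j'
    simp only [a]
    split_ifs <;> assumption
  refine ⟨B.ext h0 h1 a ha, hAB.trans (ext_range _ _ _ _ _), ?_⟩
  have := ext_g B h0 h1 a ha
  convert this using 1
  rw [Finset.sum_eq_single j]
  · rw [row_single i0 (fun j' => if j' = j then s else 0) j, if_pos rfl, hj]
  · intro j' _ hj'
    rw [row_single i0 (fun j' => if j' = j then s else 0) j', if_neg hj']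
    simp
  · intro h; exact absurd (Finset.mem_univ _) h

theorem ext_copy (h0 : (0 : k) ∈ S) (h1' : (1 : k) ∈ S) (h1 : (-1 : k) ∈ S) (D : Sys S m)
    (i j : Fin D.b) : ∃ E : Sys S m, Set.range D.g ⊆ Set.range E.g ∧ ∃ i' j' : Fin E.b,
      i' ≠ j' ∧ E.g i' = D.g i ∧ E.g j' = D.g j := by
  let a : Fin (m + 1) → Fin D.b → k := fun i' j' => if i' = 0 then (if j' = i then 1 else 0) else 0
  have ha : ∀ i j, a i j ∈ S := by
    intro i j'
    simp only [a]
    split_ifs <;> assumption
  refine ⟨D.ext h0 h1 a ha, ext_range _ _ _ _ _, (0 : Fin (D.b + 1)), j.succ,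
    (Fin.succ_ne_zero j).symm, ?_, rfl⟩
  show (Fin.cons (∑ j, row a j * D.g j) D.g : Fin (D.b + 1) → MvPolynomial (Fin m) k) 0 = D.g i
  rw [Fin.cons_zero, Finset.sum_eq_single i]
  · rw [row_single 0 (fun j' => if j' = i then 1 else 0) i, if_pos rfl]
    simp
  · intro j' _ hj'
    rw [row_single 0 (fun j' => if j' = i then 1 else 0) j', if_neg hj']
    simp
  · intro h; exact absurd (Finset.mem_univ _) h

theorem cmp_add (h0 : (0 : k) ∈ S) (h1' : (1 : k) ∈ S) (h1 : (-1 : k) ∈ S)
    {p q : MvPolynomial (Fin m) k} (hp : Cmp S m p) (hq : Cmp S m q) : Cmp S m (p + q) := by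
  intro A
  obtain ⟨B, hAB, hpB⟩ := hp A
  obtain ⟨D, hBD, j, hj⟩ := hq B
  obtain ⟨i, hi⟩ := hBD hpB
  obtain ⟨E, hDE, i', j', hij, hi', hj'⟩ := ext_copy h0 h1' h1 D i j
  rw [hi] at hi'
  rw [hj] at hj'
  let a2 : Fin (m + 1) → Fin E.b → k :=
    fun i'' x => if i'' = 0 then (if x = i' ∨ x = j' then 1 else 0) else 0
  have ha2 : ∀ i j, a2 i j ∈ S := by
    intro i j'
    simp only [a2]
    split_ifs <;> assumption
  refine ⟨E.ext h0 h1 a2 ha2, (hAB.trans hBD).trans (hDE.trans
    (ext_range E _ _ a2 ha2)), ?_⟩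
  have := ext_g E h0 h1 a2 ha2
  convert this using 1
  have e1 : ∀ x : Fin E.b, row a2 x * E.g x
      = if x = i' ∨ x = j' then E.g x else 0 := by
    intro x
    rw [row_single 0 (fun x => if x = i' ∨ x = j' then 1 else 0) x]
    split_ifs <;> simp
  rw [Finset.sum_congr rfl fun x _ => e1 x, ← Finset.sum_filter]
  have e2 : (Finset.univ.filter fun x : Fin E.b => x = i' ∨ x = j') = {i', j'} := by
    ext x
    simp
  rw [e2, Finset.sum_pair hij, hi', hj']

theorem cmp_one : Cmp S m 1 := fun A => ⟨A, le_rfl, A.j0, A.hg0⟩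

theorem cmp_zero (h0 : (0 : k) ∈ S) (h1 : (-1 : k) ∈ S) : Cmp S m 0 := by
  have := cmp_smul_var h0 h1 (cmp_one (S := S) (m := m)) h0 0
  simpa using this

theorem cmp_monomial (h0 : (0 : k) ∈ S) (h1' : (1 : k) ∈ S) (h1 : (-1 : k) ∈ S)
    (μ : Fin m →₀ ℕ) : Cmp S m (monomial μ 1) := by
  have key : ∀ (s : Multiset (Fin m)), Cmp S m (s.map X).prod := by
    intro s
    induction s using Multiset.induction_on with
    | empty => simpa using cmp_one
    | cons i s ih =>
      have := cmp_smul_var h0 h1 ih h1' i.succ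
      rw [Multiset.map_cons, Multiset.prod_cons]
      simpa using this
  have h : (monomial μ (1 : k) : MvPolynomial (Fin m) k) = ((Finsupp.toMultiset μ).map X).prod := by
    rw [Finsupp.toMultiset_map, Finsupp.prod_toMultiset, MvPolynomial.monomial_eq, C_1, one_mul]
    rw [Finsupp.prod_mapDomain_index_inj]
    exact MvPolynomial.X_injective
  rw [h]
  exact key _

theorem cmp_closure (hS : Gen S) {c : k} (hc : c ∈ AddSubmonoid.closure S) (μ : Fin m →₀ ℕ) :
    Cmp S m (monomial μ c) := by
  obtain ⟨h0, h1', h1, -⟩ := hS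
  induction hc using AddSubmonoid.closure_induction with
  | mem s hs =>
    have := cmp_smul_var h0 h1 (cmp_monomial h0 h1' h1 μ) hs 0
    rw [Fin.cons_zero, mul_one, C_mul_monomial, mul_one] at this
    exact this
  | zero => simpa using cmp_zero h0 h1
  | add x y _ _ hx hy => rw [map_add]; exact cmp_add h0 h1' h1 hx hy

theorem cmp_exists (hS : Gen S) (f : MvPolynomial (Fin m) k) :
    ∃ u : k, u ≠ 0 ∧ Cmp S m (C u * f) := by
  classical
  obtain ⟨u, hu, h⟩ := hS.2.2.2 (f.support.image fun μ => coeff μ f)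
  refine ⟨u, hu, ?_⟩
  have e : C u * f = ∑ μ ∈ f.support, monomial μ (u * coeff μ f) := by
    conv_lhs => rw [f.as_sum, Finset.mul_sum]
    simp only [C_mul_monomial]
  rw [e]
  have key : ∀ T : Finset (Fin m →₀ ℕ), T ⊆ f.support →
      Cmp S m (∑ μ ∈ T, monomial μ (u * coeff μ f)) := by
    intro T
    induction T using Finset.induction_on with
    | empty => intro _; simpa using cmp_zero hS.1 hS.2.2.1
    | insert μ T hμ ih =>
      intro hT
      rw [Finset.sum_insert hμ]
      apply cmp_add hS.1 hS.2.1 hS.2.2.1 _ (ih fun x hx => hT (Finset.mem_insert_of_mem hx))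
      apply cmp_closure hS
      apply h
      exact Finset.mem_image.2 ⟨μ, hT (Finset.mem_insert_self _ _), rfl⟩
  exact key _ (Finset.Subset.refl _)

/-- One system for all members of a family, up to constants. -/
theorem family (hS : Gen S) {r : ℕ} (f : Fin r → MvPolynomial (Fin m) k) :
    ∃ B : Sys S m, ∀ e, ∃ u : k, u ≠ 0 ∧ C u * f e ∈ Set.range B.g := by
  have key : ∀ T : Finset (Fin r), ∃ B : Sys S m,
      ∀ e ∈ T, ∃ u : k, u ≠ 0 ∧ C u * f e ∈ Set.range B.g := by
    intro T
    induction T using Finset.induction_on with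
    | empty => exact ⟨init S m, by simp⟩
    | insert e T he ih =>
      obtain ⟨B, hB⟩ := ih
      obtain ⟨u, hu, hf⟩ := cmp_exists hS (f e)
      obtain ⟨D, hBD, hD⟩ := hf B
      refine ⟨D, ?_⟩
      intro e' he'
      rcases Finset.mem_insert.1 he' with rfl | h
      · exact ⟨u, hu, hD⟩
      · obtain ⟨v, hv, hv'⟩ := hB e' h
        exact ⟨v, hv, hBD hv'⟩
  obtain ⟨B, hB⟩ := key Finset.univ
  exact ⟨B, fun e => hB e (Finset.mem_univ e)⟩

/-! ### The isomorphism -/

/-- The inclusion of the polynomials in `x`. -/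
noncomputable def inx (k : Type) [Field k] (m b : ℕ) :
    MvPolynomial (Fin m) k →ₐ[k] MvPolynomial (Fin m ⊕ Fin b) k :=
  rename Sum.inl

/-- The linear form with coefficients `v`. -/
noncomputable def lam {b : ℕ} (v : Fin b → MvPolynomial (Fin m) k) :
    MvPolynomial (Fin m ⊕ Fin b) k := ∑ j, inx k m b (v j) * X (Sum.inr j)

theorem deh_eq {t b : ℕ} (c : Fin t → Fin (m + 1) → Fin b → k) (e : Fin t) :
    deh c e = lam (row (c e)) := by
  unfold deh lam row aff inx
  apply Finset.sum_congr rfl
  intro j _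
  congr 1
  simp only [map_add, map_sum, map_mul, rename_C, rename_X]

theorem lam_mem {t b : ℕ} (c : Fin t → Fin (m + 1) → Fin b → k)
    (v : Fin b → MvPolynomial (Fin m) k)
    (hv : v ∈ Submodule.span (MvPolynomial (Fin m) k) (Set.range fun e => row (c e))) :
    lam v ∈ Ideal.span (Set.range (deh c)) := by
  induction hv using Submodule.span_induction with
  | mem x hx =>
    obtain ⟨e, rfl⟩ := hx
    rw [← deh_eq]
    exact Ideal.subset_span ⟨e, rfl⟩
  | zero =>
    have : lam (0 : Fin b → MvPolynomial (Fin m) k) = 0 := by simp [lam]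
    rw [this]
    exact Ideal.zero_mem _
  | add x y _ _ hx hy =>
    have : lam (x + y) = lam x + lam y := by
      simp [lam, add_mul, Finset.sum_add_distrib]
    rw [this]
    exact Ideal.add_mem _ hx hy
  | smul p x _ hx =>
    have : lam (p • x) = inx k m b p * lam x := by
      simp [lam, Finset.mul_sum, mul_assoc]
    rw [this]
    exact Ideal.mul_mem_left _ _ hx

theorem lam_single {b : ℕ} (j : Fin b) (p : MvPolynomial (Fin m) k) :
    lam (Pi.single j p) = inx k m b p * X (Sum.inr j) := by
  unfold lam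
  rw [Finset.sum_eq_single j]
  · simp
  · intro i _ hi
    rw [Pi.single_eq_of_ne hi]
    simp
  · intro h; exact absurd (Finset.mem_univ _) h

/-- The general form of the isomorphism. -/
theorem iso {t b r : ℕ} (c : Fin t → Fin (m + 1) → Fin b → k)
    (f : Fin r → MvPolynomial (Fin m) k) (g : Fin b → MvPolynomial (Fin m) k) (j0 : Fin b)
    (hg0 : g j0 = 1)
    (hrow : ∀ e, ∑ j, row (c e) j * g j ∈ Ideal.span (Set.range f))
    (hgen : ∀ j, Pi.single j (1 : MvPolynomial (Fin m) k) - g j • Pi.single j0 1 ∈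
      Submodule.span (MvPolynomial (Fin m) k) (Set.range fun e => row (c e)))
    (hf : ∀ e, Pi.single j0 (f e) ∈
      Submodule.span (MvPolynomial (Fin m) k) (Set.range fun e => row (c e))) :
    Nonempty (Quo (deh c) ≃ₐ[k] Quo (mulX f)) := by
  let I : Ideal (MvPolynomial (Fin m ⊕ Fin b) k) := Ideal.span (Set.range (deh c))
  let J : Ideal (Polynomial (MvPolynomial (Fin m) k)) := Ideal.span (Set.range (mulX f))
  let φ0 : MvPolynomial (Fin m ⊕ Fin b) k →ₐ[k] Polynomial (MvPolynomial (Fin m) k) :=
    aeval (Sum.elim (fun i => Polynomial.C (X i)) (fun j => Polynomial.C (g j) * Polynomial.X))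
  let ψ0 : Polynomial (MvPolynomial (Fin m) k) →ₐ[k] MvPolynomial (Fin m ⊕ Fin b) k :=
    Polynomial.eval₂AlgHom (inx k m b) (X (Sum.inr j0)) (fun a => Commute.all _ _)
  have hφx : ∀ p, φ0 (inx k m b p) = Polynomial.C p := by
    intro p
    have : φ0.comp (inx k m b) = Polynomial.CAlgHom := by
      apply MvPolynomial.algHom_ext
      intro i
      simp [φ0, inx, Polynomial.CAlgHom]
    exact DFunLike.congr_fun this p
  have hφz : ∀ j, φ0 (X (Sum.inr j)) = Polynomial.C (g j) * Polynomial.X := by
    intro j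
    simp [φ0]
  have hφlam : ∀ v : Fin b → MvPolynomial (Fin m) k,
      φ0 (lam v) = Polynomial.C (∑ j, v j * g j) * Polynomial.X := by
    intro v
    unfold lam
    rw [map_sum, map_sum, Finset.sum_mul]
    apply Finset.sum_congr rfl
    intro j _
    rw [map_mul, hφx, hφz, Polynomial.C_mul, mul_assoc]
  have hψC : ∀ p, ψ0 (Polynomial.C p) = inx k m b p := by
    intro p
    show Polynomial.eval₂ _ _ _ = _
    rw [Polynomial.eval₂_C]
    rfl
  have hψX : ψ0 Polynomial.X = X (Sum.inr j0) := by
    show Polynomial.eval₂ _ _ _ = _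
    rw [Polynomial.eval₂_X]
  have hJ : ∀ p ∈ Ideal.span (Set.range f), Polynomial.C p * Polynomial.X ∈ J := by
    intro p hp
    induction hp using Submodule.span_induction with
    | mem x hx =>
      obtain ⟨e, rfl⟩ := hx
      exact Ideal.subset_span ⟨e, rfl⟩
    | zero => rw [map_zero, zero_mul]; exact Ideal.zero_mem _
    | add x y _ _ hx hy => rw [map_add, add_mul]; exact Ideal.add_mem _ hx hy
    | smul a x _ hx =>
      rw [smul_eq_mul, map_mul, mul_assoc]
      exact Ideal.mul_mem_left _ _ hx
  have h1 : I ≤ J.comap φ0.toRingHom := by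
    rw [Ideal.span_le]
    rintro _ ⟨e, rfl⟩
    show φ0 (deh c e) ∈ J
    rw [deh_eq, hφlam]
    exact hJ _ (hrow e)
  have h2 : J ≤ I.comap ψ0.toRingHom := by
    rw [Ideal.span_le]
    rintro _ ⟨e, rfl⟩
    show ψ0 (mulX f e) ∈ I
    unfold mulX
    rw [map_mul, hψC, hψX, ← lam_single]
    exact lam_mem c _ (hf e)
  let φ : Quo (deh c) →ₐ[k] Quo (mulX f) :=
    Ideal.Quotient.liftₐ I ((Ideal.Quotient.mkₐ k J).comp φ0) (by
      intro a ha
      exact Ideal.Quotient.eq_zero_iff_mem.2 (h1 ha))
  let ψ : Quo (mulX f) →ₐ[k] Quo (deh c) :=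
    Ideal.Quotient.liftₐ J ((Ideal.Quotient.mkₐ k I).comp ψ0) (by
      intro a ha
      exact Ideal.Quotient.eq_zero_iff_mem.2 (h2 ha))
  have hφ : ∀ p, φ (Ideal.Quotient.mk I p) = Ideal.Quotient.mk J (φ0 p) := fun p => rfl
  have hψ : ∀ p, ψ (Ideal.Quotient.mk J p) = Ideal.Quotient.mk I (ψ0 p) := fun p => rfl
  have e1 : ∀ p, φ0 (ψ0 p) = p := by
    intro p
    induction p using Polynomial.induction_on with
    | C a => rw [hψC, hφx]
    | add p q hp hq => rw [map_add, map_add, hp, hq]
    | monomial n a _ =>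
      rw [map_mul, map_mul, map_pow, map_pow, hψC, hψX, hφx, hφz, hg0, Polynomial.C_1, one_mul]
  have e2 : ∀ p, Ideal.Quotient.mk I (ψ0 (φ0 p)) = Ideal.Quotient.mk I p := by
    intro p
    have : (Ideal.Quotient.mkₐ k I).comp (ψ0.comp φ0) = Ideal.Quotient.mkₐ k I := by
      apply MvPolynomial.algHom_ext
      rintro (i | j)
      · show Ideal.Quotient.mk I (ψ0 (φ0 (X (Sum.inl i)))) = Ideal.Quotient.mk I (X (Sum.inl i))
        have : φ0 (X (Sum.inl i)) = Polynomial.C (X i) := by simp [φ0]
        rw [this, hψC]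
        simp [inx]
      · show Ideal.Quotient.mk I (ψ0 (φ0 (X (Sum.inr j)))) = Ideal.Quotient.mk I (X (Sum.inr j))
        rw [hφz, map_mul, hψC, hψX, eq_comm, Ideal.Quotient.eq]
        have h3 := lam_mem c _ (hgen j)
        convert h3 using 1
        have h4 : ∀ (v w : Fin b → MvPolynomial (Fin m) k), lam (v - w) = lam v - lam w := by
          intro v w
          simp [lam, sub_mul, Finset.sum_sub_distrib]
        have h5 : ∀ (p : MvPolynomial (Fin m) k) (v : Fin b → MvPolynomial (Fin m) k),
            lam (p • v) = inx k m b p * lam v := by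
          intro p v
          simp [lam, Finset.mul_sum, mul_assoc]
        rw [h4, h5, lam_single, lam_single, map_one, one_mul, one_mul]
    exact DFunLike.congr_fun this p
  refine ⟨AlgEquiv.ofAlgHom φ ψ ?_ ?_⟩
  · ext x
    obtain ⟨p, rfl⟩ := Ideal.Quotient.mk_surjective x
    show φ (ψ (Ideal.Quotient.mk J p)) = Ideal.Quotient.mk J p
    rw [hψ, hφ, e1]
  · ext x
    obtain ⟨p, rfl⟩ := Ideal.Quotient.mk_surjective x
    show ψ (φ (Ideal.Quotient.mk I p)) = Ideal.Quotient.mk I p
    rw [hφ, hψ, e2]

end Reg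

theorem reg_thm : REGStmt := by
  intro k _ S hS m r f
  obtain ⟨B, hB⟩ := Reg.family hS f
  choose u hu jj hjj using hB
  let nc : Fin r → Fin (m + 1) → Fin B.b → k :=
    fun e i j => if i = 0 then (if j = jj e then 1 else 0) else 0
  let c' : Fin (B.t + r) → Fin (m + 1) → Fin B.b → k := Fin.append B.c nc
  refine ⟨B.t + r, B.b, c', ?_, ?_⟩
  · intro e
    refine Fin.addCases ?_ ?_ e
    · intro e i j
      simp only [c', Fin.append_left]
      exact B.hc e i j
    · intro e i j
      simp only [c', Fin.append_right, nc]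
      split_ifs
      · exact hS.2.1
      · exact hS.1
      · exact hS.1
  · have hnr : ∀ e, Reg.row (nc e) = Pi.single (jj e) 1 := by
      intro e
      funext j
      have := Reg.row_single (m := m) 0 (fun j' : Fin B.b => if j' = jj e then (1 : k) else 0) j
      show Reg.row (nc e) j = _
      rw [show Reg.row (nc e) j = _ from this, Fin.cons_zero, mul_one]
      by_cases h : j = jj e
      · subst h; simp
      · rw [if_neg h, Pi.single_eq_of_ne h, map_zero]
    have hold : ∀ v ∈ Submodule.span (MvPolynomial (Fin m) k)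
        (Set.range fun e => Reg.row (B.c e)), v ∈ Submodule.span (MvPolynomial (Fin m) k)
        (Set.range fun e => Reg.row (c' e)) := by
      have : Submodule.span (MvPolynomial (Fin m) k) (Set.range fun e => Reg.row (B.c e)) ≤
          Submodule.span (MvPolynomial (Fin m) k) (Set.range fun e => Reg.row (c' e)) := by
        apply Submodule.span_mono
        rintro _ ⟨e, rfl⟩
        exact ⟨Fin.castAdd r e, by simp [c']⟩
      exact this
    refine Reg.iso c' f B.g B.j0 B.hg0 ?_ (fun j => hold _ (B.hgen j)) ?_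
    · intro e
      refine Fin.addCases ?_ ?_ e
      · intro e
        simp only [c', Fin.append_left]
        rw [B.hrow]
        exact Ideal.zero_mem _
      · intro e
        simp only [c', Fin.append_right]
        rw [hnr]
        rw [Finset.sum_eq_single (jj e)]
        · rw [Pi.single_eq_same, one_mul, hjj]
          exact Ideal.mul_mem_left _ _ (Ideal.subset_span ⟨e, rfl⟩)
        · intro j _ hj
          rw [Pi.single_eq_of_ne hj, zero_mul]
        · intro h; exact absurd (Finset.mem_univ _) h
    · intro e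
      have h1 := hold _ (B.hgen (jj e))
      have h2 : (Pi.single (jj e) 1 : Fin B.b → MvPolynomial (Fin m) k) ∈
          Submodule.span (MvPolynomial (Fin m) k) (Set.range fun e => Reg.row (c' e)) := by
        rw [← hnr]
        apply Submodule.subset_span
        exact ⟨Fin.natAdd B.t e, by simp [c']⟩
      have h3 := Submodule.sub_mem _ h2 h1
      rw [sub_sub_cancel, hjj] at h3
      have h4 := Submodule.smul_mem _ (C (u e)⁻¹ : MvPolynomial (Fin m) k) h3
      rw [smul_smul, ← mul_assoc, ← C_mul, inv_mul_cancel₀ (hu e), C_1, one_mul] at h4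
      convert h4 using 1
      funext j
      by_cases h : j = B.j0
      · subst h; simp
      · rw [Pi.single_eq_of_ne h, Pi.smul_apply, Pi.single_eq_of_ne h, smul_zero]

end Pool.WMC
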